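import Pool.Agent.TH250.Z3.Stm

/-!
# Irrationality exponent of `ζ(3)`, second design: the double residues and binomial coefficients
-/

open Polynomial Pool.Agent.H337R2 Filter Topology

namespace Pool.Agent.TH9.Z3

open Pool.Agent.TH817.Z3 Pool.Agent.TH250.Z3

theorem prod_desc (k a b : ℕ) (hab : a ≤ b) (h : b < k) :
    ∏ j ∈ Finset.Icc (a + 1) b, ((k : ℚ) - j) =
      ((b - a).factorial : ℚ) * ((k - a - 1).choose (b - a) : ℚ) := by
  have e : ∏ j ∈ Finset.Icc (a + 1) b, ((k : ℚ) - j) =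
      ((k - a - 1).descFactorial (b - a) : ℚ) := by
    induction b, hab using Nat.le_induction with
    | base => simp
    | succ b hab ih =>
      rw [Finset.prod_Icc_succ_top (by omega), ih (by omega),
        show b + 1 - a = (b - a) + 1 by omega, Nat.descFactorial_succ]
      have : ((k - a - 1 - (b - a) : ℕ) : ℚ) = (k : ℚ) - ((b + 1 : ℕ) : ℚ) := by
        rw [← Nat.cast_sub (by omega)]
        congr 1
        omega
      rw [Nat.cast_mul, this, mul_comm]
  rw [e, Nat.descFactorial_eq_factorial_mul_choose, Nat.cast_mul]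

theorem prod_below (a k : ℕ) :
    ∏ m ∈ Finset.Ico a k, |(m : ℚ) - k| = ((k - a).factorial : ℚ) := by
  rw [Finset.prod_Ico_eq_prod_range, ← Finset.prod_range_reflect,
    ← Finset.prod_range_add_one_eq_factorial]
  push_cast
  refine Finset.prod_congr rfl fun i hi => ?_
  rw [Finset.mem_range] at hi
  have e : (a : ℚ) + ((k - a - 1 - i : ℕ) : ℚ) = (k : ℚ) - 1 - i := by
    have : a + (k - a - 1 - i) + (1 + i) = k := by omega
    have h2 : ((a + (k - a - 1 - i) + (1 + i) : ℕ) : ℚ) = (k : ℚ) := by rw [this]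
    push_cast at h2 ⊢
    linarith
  rw [e, show (k : ℚ) - 1 - i - k = -((i : ℚ) + 1) by ring, abs_neg,
    abs_of_nonneg (by positivity)]

theorem prod_above (k b : ℕ) :
    ∏ m ∈ Finset.Ico (k + 1) (b + 1), |(m : ℚ) - k| = ((b - k).factorial : ℚ) := by
  rw [Finset.prod_Ico_eq_prod_range, Nat.add_sub_add_right,
    ← Finset.prod_range_add_one_eq_factorial]
  push_cast
  refine Finset.prod_congr rfl fun i hi => ?_
  rw [show (k : ℚ) + 1 + i - k = i + 1 by ring, abs_of_nonneg (by positivity)]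

theorem prod_punct (a b k : ℕ) (ha : a ≤ k) (hb : k ≤ b) :
    ∏ m ∈ (Finset.Ico a (b + 1)).erase k, |(m : ℚ) - k| =
      ((k - a).factorial : ℚ) * ((b - k).factorial : ℚ) := by
  have e : (Finset.Ico a (b + 1)).erase k = Finset.Ico a k ∪ Finset.Ico (k + 1) (b + 1) := by
    ext m
    rw [Finset.mem_erase, Finset.mem_union, Finset.mem_Ico, Finset.mem_Ico, Finset.mem_Ico]
    omega
  rw [e, Finset.prod_union, prod_below, prod_above]
  rw [Finset.disjoint_left]
  intro m h1 h2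
  rw [Finset.mem_Ico] at h1 h2
  omega

theorem den_eq (n k : ℕ) (hk : k ∈ Finset.Icc (4 * n + 1) (8 * n)) :
    ∏ m ∈ (sF n).erase k, |(m : ℚ) - k| ^ mF n m =
      (((k - (7 * n / 2 + 1)).factorial : ℚ) * ((8 * n - k).factorial : ℚ)) *
        (((k - (4 * n + 1)).factorial : ℚ) * ((17 * n / 2 - k).factorial : ℚ)) := by
  rw [Finset.mem_Icc] at hk
  have h1 : ∏ m ∈ (sF n).erase k, |(m : ℚ) - k| ^ mF n m =
      (∏ m ∈ (sF n).erase k, if m ≤ 8 * n then |(m : ℚ) - k| else 1) *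
        ∏ m ∈ (sF n).erase k, if 4 * n < m then |(m : ℚ) - k| else 1 := by
    rw [← Finset.prod_mul_distrib]
    refine Finset.prod_congr rfl fun m _ => ?_
    unfold mF
    rw [pow_add]
    congr 1
    · split_ifs <;> simp
    · split_ifs <;> simp
  rw [h1, ← Finset.prod_filter, ← Finset.prod_filter]
  congr 1
  · rw [← prod_punct (7 * n / 2 + 1) (8 * n) k (by omega) (by omega)]
    refine Finset.prod_congr ?_ fun _ _ => rfl
    ext m
    rw [Finset.mem_filter, Finset.mem_erase, Finset.mem_erase, Finset.mem_Icc, Finset.mem_Ico]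
    omega
  · rw [← prod_punct (4 * n + 1) (17 * n / 2) k (by omega) (by omega)]
    refine Finset.prod_congr ?_ fun _ _ => rfl
    ext m
    rw [Finset.mem_filter, Finset.mem_erase, Finset.mem_erase, Finset.mem_Icc, Finset.mem_Ico]
    omega

/-- the factor in front -/
noncomputable def fr (n : ℕ) : ℚ :=
  ((9 * n / 2 : ℕ) : ℚ) * ((9 * n / 2).factorial : ℚ) * ((3 * n - n / 2).factorial : ℚ) /
    (((5 * n / 2).factorial : ℚ) * ((8 * n - 7 * n / 2 - 1).factorial : ℚ))

theorem fr_nonneg (n : ℕ) : 0 ≤ fr n := by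
  unfold fr
  positivity

theorem fr_le {n : ℕ} (hn : 1 ≤ n) : fr n ≤ 75 * (n : ℚ) ^ 3 := by
  obtain ⟨h, rfl | rfl⟩ := Nat.even_or_odd' n
  · have e1 : 9 * (2 * h) / 2 = 9 * h := by omega
    have e2 : 3 * (2 * h) - 2 * h / 2 = 5 * h := by omega
    have e3 : 5 * (2 * h) / 2 = 5 * h := by omega
    have e4 : 8 * (2 * h) - 7 * (2 * h) / 2 - 1 = 9 * h - 1 := by omega
    have e5 : (9 * h).factorial = (9 * h) * (9 * h - 1).factorial :=
      (Nat.mul_factorial_pred (by omega)).symm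
    have f1 : ((5 * h).factorial : ℚ) ≠ 0 := by exact_mod_cast (5 * h).factorial_ne_zero
    have f2 : ((9 * h - 1).factorial : ℚ) ≠ 0 := by exact_mod_cast (9 * h - 1).factorial_ne_zero
    have e6 : fr (2 * h) = 81 * (h : ℚ) ^ 2 := by
      unfold fr
      rw [e1, e2, e3, e4, e5]
      push_cast
      field_simp
      ring
    rw [e6]
    have h1 : (1 : ℚ) ≤ h := by exact_mod_cast (by omega : 1 ≤ h)
    push_cast
    nlinarith [mul_nonneg (mul_nonneg (by linarith : (0 : ℚ) ≤ h) (by linarith : (0 : ℚ) ≤ h))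
      (by linarith : (0 : ℚ) ≤ h - 1)]
  · have e1 : 9 * (2 * h + 1) / 2 = 9 * h + 4 := by omega
    have e2 : 3 * (2 * h + 1) - (2 * h + 1) / 2 = (5 * h + 2) + 1 := by omega
    have e3 : 5 * (2 * h + 1) / 2 = 5 * h + 2 := by omega
    have e4 : 8 * (2 * h + 1) - 7 * (2 * h + 1) / 2 - 1 = 9 * h + 4 := by omega
    have f1 : ((5 * h + 2).factorial : ℚ) ≠ 0 := by exact_mod_cast (5 * h + 2).factorial_ne_zero
    have f2 : ((9 * h + 4).factorial : ℚ) ≠ 0 := by exact_mod_cast (9 * h + 4).factorial_ne_zero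
    have e6 : fr (2 * h + 1) = (9 * (h : ℚ) + 4) * (5 * h + 3) := by
      unfold fr
      rw [e1, e2, e3, e4, Nat.factorial_succ (5 * h + 2)]
      push_cast
      field_simp
      ring
    rw [e6]
    have h1 : (0 : ℚ) ≤ h := Nat.cast_nonneg h
    push_cast
    nlinarith [mul_nonneg h1 h1, mul_nonneg (mul_nonneg h1 h1) h1]

theorem RK_eq {n k : ℕ} (hn : 1 ≤ n) (hk : k ∈ Finset.Icc (4 * n + 1) (8 * n)) :
    RK n k = fr n *
    ((((k - n / 2 - 1).choose (3 * n - n / 2) : ℕ) : ℚ) *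
      (((k - n - 1).choose (7 * n / 2 - n) : ℕ) : ℚ) *
      ((((8 * n - 7 * n / 2 - 1).choose (k - 7 * n / 2 - 1) : ℕ) : ℚ) *
        (((17 * n / 2 - 4 * n - 1).choose (k - 4 * n - 1) : ℕ) : ℚ))) := by
  have hk2 := hk
  rw [Finset.mem_Icc] at hk2
  unfold RK
  rw [prod_desc k (n / 2) (3 * n) (by omega) (by omega),
    prod_desc k n (7 * n / 2) (by omega) (by omega), den_eq n k hk]
  have c3 := Nat.choose_mul_factorial_mul_factorial (n := 8 * n - 7 * n / 2 - 1)
    (k := k - 7 * n / 2 - 1) (by omega)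
  rw [show 8 * n - 7 * n / 2 - 1 - (k - 7 * n / 2 - 1) = 8 * n - k by omega] at c3
  have c4 := Nat.choose_mul_factorial_mul_factorial (n := 17 * n / 2 - 4 * n - 1)
    (k := k - 4 * n - 1) (by omega)
  rw [show 17 * n / 2 - 4 * n - 1 - (k - 4 * n - 1) = 17 * n / 2 - k by omega] at c4
  have c5 : (9 * n / 2).factorial = (9 * n / 2) * (17 * n / 2 - 4 * n - 1).factorial := by
    rw [show 17 * n / 2 - 4 * n - 1 = 9 * n / 2 - 1 by omega]
    exact (Nat.mul_factorial_pred (by omega)).symm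
  have hcF : cF n = ((9 * n / 2).factorial : ℚ) * ((9 * n / 2 : ℕ) : ℚ) *
      ((17 * n / 2 - 4 * n - 1).factorial : ℚ) / ((5 * n / 2).factorial : ℚ) ^ 2 := by
    unfold cF
    have : (((9 * n / 2).factorial ^ 2 : ℕ) : ℚ) = ((9 * n / 2).factorial : ℚ) *
        ((9 * n / 2 : ℕ) : ℚ) * ((17 * n / 2 - 4 * n - 1).factorial : ℚ) := by
      rw [pow_two, Nat.cast_mul]
      conv_lhs => rw [c5]
      conv_rhs => rw [c5]
      push_cast
      ring
    rw [this]
    push_cast
    rfl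
  have e7 : 7 * n / 2 - n = 5 * n / 2 := by omega
  rw [hcF, ← c4, e7]
  unfold fr
  rw [← c3]
  have g1 : k - (7 * n / 2 + 1) = k - 7 * n / 2 - 1 := by omega
  have g2 : k - (4 * n + 1) = k - 4 * n - 1 := by omega
  rw [g1, g2]
  have f0 : ((8 * n - 7 * n / 2 - 1).choose (k - 7 * n / 2 - 1) : ℚ) ≠ 0 := by
    exact_mod_cast (Nat.choose_pos (by omega)).ne'
  have f1 : ((5 * n / 2).factorial : ℚ) ≠ 0 := by exact_mod_cast (5 * n / 2).factorial_ne_zero
  have f2 : ((k - 7 * n / 2 - 1).factorial : ℚ) ≠ 0 := by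
    exact_mod_cast (k - 7 * n / 2 - 1).factorial_ne_zero
  have f3 : ((8 * n - k).factorial : ℚ) ≠ 0 := by exact_mod_cast (8 * n - k).factorial_ne_zero
  have f4 : ((k - 4 * n - 1).factorial : ℚ) ≠ 0 := by
    exact_mod_cast (k - 4 * n - 1).factorial_ne_zero
  have f5 : ((17 * n / 2 - k).factorial : ℚ) ≠ 0 := by
    exact_mod_cast (17 * n / 2 - k).factorial_ne_zero
  push_cast
  field_simp

/-- R2 -/
theorem R2 : Pool.Agent.TH250.Z3.StR2 := by
  intro n k hn hk
  rw [RK_eq hn hk]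
  refine ⟨mul_nonneg (fr_nonneg n) (by positivity), ?_⟩
  exact mul_le_mul_of_nonneg_right (fr_le hn) (by positivity)

end Pool.Agent.TH9.Z3
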